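import Pool.Agent.X55.Fam.LinCor

/-!
# Tuples `n + a i` with prescribed digital functions in short intervals, uniformly in the shifts

Let `S` be a strongly `b`-additive function with values in a finite abelian group (for example the sum of the digits in
base `b`, or any vector of numbers of occurrences of nonzero digits, modulo some integers), which is not degenerate:
no nontrivial character of the group makes it a function of the residue of `n` modulo `b - 1`. We consider the tuples
`n + a i` (`i < k`) for an arbitrary admissible tuple of shifts `a i` and for the integers `n` with `S n = g` in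
ARBITRARY short intervals `(M, M + H]`.
* If `M + H` and all the shifts are at most `H ^ B`, where `B` is arbitrary, the number of the `n` for which all the
  `n + a i` have a bounded number of prime factors, all greater than `H ^ δ`, has the expected order of magnitude, the
  product of `H / |G|` and of the local factors of the tuple over the primes up to `H`.
* The number of the `n` for which all of them are primes is at most of this order.
* The number of the `n` for which none has a prime factor up to `y` is given by an asymptotic formula.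
All the bounds are uniform in `a`, `M`, `g`: the constants depend only on `k`, `B`, `b`, `S`.

The proof combines a sieve which is uniform in the removed residue classes and the exponential sums of digital
functions (in the starting files), over the blocks of a short interval.
-/

set_option autoImplicit false

namespace Pool.Agent.Results.MP_f686a1_nt.DigitalFunctions

open Finset

/-- `S` is strongly `b`-additive (`S (b n + d) = S n + S d` for the digits `d < b`), and no nontrivial character of the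
group maps `S n`, for all digits `n`, to the powers `z ^ n` of a number `z` with `z ^ (b - 1) = 1` -/
def Digital {G : Type} [AddCommGroup G] (b : ℕ) (S : ℕ → G) : Prop :=
  (∀ n d : ℕ, d < b → S (b * n + d) = S n + S d) ∧
  ∀ χ : AddChar G ℂ, χ ≠ 0 → ¬ (χ (S 1) ^ (b - 1) = 1 ∧ ∀ d < b, χ (S d) = χ (S 1) ^ d)

/-- The tuple of the shifts is admissible: no prime divides one of the `n + a i` for each `n`. -/
def Admissible {k : ℕ} (a : Fin k → ℕ) : Prop :=
  ∀ q : ℕ, q.Prime → ∃ n : ℕ, ∀ i, ¬ q ∣ n + a i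

/-- `m ≠ 0` has at most `r` prime factors, counted with multiplicity, all of them greater than `x`. -/
def AlmostPrime (r : ℕ) (x : ℝ) (m : ℕ) : Prop :=
  m ≠ 0 ∧ m.primeFactorsList.length ≤ r ∧ ∀ q : ℕ, q.Prime → q ∣ m → x < q

/-- the number of the `n` in `(M, M + H]` with the property `R` for which all the `n + a i` are almost primes -/
noncomputable def almost {k : ℕ} (a : Fin k → ℕ) (r : ℕ) (x : ℝ) (M H : ℕ) (R : ℕ → Prop) : ℕ :=
  Set.ncard {n : ℕ | M < n ∧ n ≤ M + H ∧ R n ∧ ∀ i, AlmostPrime r x (n + a i)}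

/-- the number of the `n` in `(M, M + H]` with the property `R` for which all the `n + a i` are primes -/
noncomputable def primes {k : ℕ} (a : Fin k → ℕ) (M H : ℕ) (R : ℕ → Prop) : ℕ :=
  Set.ncard {n : ℕ | M < n ∧ n ≤ M + H ∧ R n ∧ ∀ i, (n + a i).Prime}

/-- the number of the `n` in `(M, M + H]` with the property `R` for which no `n + a i` has a prime factor up to `y` -/
noncomputable def rough {k : ℕ} (a : Fin k → ℕ) (y M H : ℕ) (R : ℕ → Prop) : ℕ :=
  Set.ncard {n : ℕ | M < n ∧ n ≤ M + H ∧ R n ∧ ∀ q : ℕ, q.Prime → q ≤ y → ∀ i, ¬ q ∣ n + a i}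

/-- the product over the primes `q ≤ y` of `1 - ν(q) / q`, where `ν(q)` is the number of the residues `n` modulo `q` for
which one of the `n + a i` is divisible by `q` -/
noncomputable def V {k : ℕ} (a : Fin k → ℕ) (y : ℕ) : ℝ :=
  ∏ q ∈ (Icc 1 y).filter Nat.Prime, (1 - (Set.ncard {n : ℕ | n < q ∧ ∃ i, q ∣ n + a i} : ℝ) / q)

lemma val (t n : ℕ) : (1 * (n : ℤ) + (t : ℤ)).natAbs = n + t := by
  rw [show (1 * (n : ℤ) + (t : ℤ)) = ((n + t : ℕ) : ℤ) by push_cast; ring, Int.natAbs_natCast]

lemma dv (q t n : ℕ) : (q : ℤ) ∣ 1 * (n : ℤ) + (t : ℤ) ↔ q ∣ n + t := by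
  rw [show (1 * (n : ℤ) + (t : ℤ)) = ((n + t : ℕ) : ℤ) by push_cast; ring, Int.natCast_dvd_natCast]

lemma V_eq {k : ℕ} (a : Fin k → ℕ) (y : ℕ) :
    Pool.Agent.X55.Fam.VL (fun _ => 1) (fun i => (a i : ℤ)) y = V a y := by
  unfold Pool.Agent.X55.Fam.VL V
  simp only [dv]

lemma adm {k : ℕ} {a : Fin k → ℕ} (ha : Admissible a) (q : ℕ) (hq : q.Prime) :
    ∃ n : ℕ, ∀ i, ¬ (q : ℤ) ∣ 1 * (n : ℤ) + (a i : ℤ) := by
  obtain ⟨n, hn⟩ := ha q hq
  exact ⟨n, fun i h => hn i ((dv q (a i) n).1 h)⟩

theorem result : ∀ (G : Type) [AddCommGroup G] [Fintype G] (b : ℕ) (S : ℕ → G), 2 ≤ b → Digital b S →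
    ∀ k : ℕ, 1 ≤ k →
    -- almost primes and primes
    (∀ B : ℕ, ∃ (r : ℕ) (δ c C : ℝ) (H₀ : ℕ), 0 < δ ∧ 0 < c ∧ 0 < C ∧
      ∀ H : ℕ, H₀ ≤ H → ∀ a : Fin k → ℕ, Admissible a → ∀ (M : ℕ) (g : G),
      (M + H ≤ H ^ B → (∀ i, a i ≤ H ^ B) →
        c * (H / Fintype.card G * V a H) ≤ almost a r ((H : ℝ) ^ δ) M H (fun n => S n = g)) ∧
      (primes a M H (fun n => S n = g) : ℝ) ≤ C * (H / Fintype.card G * V a H)) ∧
    -- the asymptotic formula
    (∀ η : ℝ, 0 < η → ∃ (δ : ℝ) (H₀ : ℕ), 0 < δ ∧
      ∀ H : ℕ, H₀ ≤ H → ∀ a : Fin k → ℕ, Admissible a → ∀ (M : ℕ) (g : G) (y : ℕ), 3 ≤ y → (y : ℝ) ≤ (H : ℝ) ^ δ →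
      |(rough a y M H (fun n => S n = g) : ℝ) - H / Fintype.card G * V a y| ≤
        η * (H / Fintype.card G * V a y)) := by
  intro G _ _ b S hb hS k hk
  constructor
  · intro B
    obtain ⟨r, δ, c, C, H₀, hδ, hc, hC, h⟩ := Pool.Agent.X55.Fam.dig_lin b hb S hS.1 hS.2 k hk B
    refine ⟨r, δ, c, C, max H₀ 1, hδ, hc, hC, ?_⟩
    intro H hH a ha M g
    have hH1 : 1 ≤ H := (le_max_right _ _).trans hH
    obtain ⟨h1, h2⟩ := h H ((le_max_left _ _).trans hH) (fun _ => 1) (fun i => (a i : ℤ)) (fun _ => one_ne_zero)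
      (adm ha) M g
    unfold Pool.Agent.X55.Fam.LoT at h1
    unfold Pool.Agent.X55.Fam.UpL at h2
    rw [V_eq] at h1 h2
    simp only [val] at h1 h2
    refine ⟨fun hM hB => h1 hM (fun i => ?_) (fun i => ?_), h2⟩
    · simpa using Nat.one_le_pow _ _ hH1
    · rw [Int.natAbs_natCast]
      exact hB i
  · intro η hη
    obtain ⟨δ, H₀, hδ, h⟩ := Pool.Agent.X55.Fam.dig_linA b hb S hS.1 hS.2 k hk η hη
    refine ⟨δ, H₀, hδ, ?_⟩
    intro H hH a ha M g y hy hyH
    have h1 := h H hH (fun _ => 1) (fun i => (a i : ℤ)) (adm ha) M g y hy hyH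
    unfold Pool.Agent.X55.Fam.AsL at h1
    rw [V_eq] at h1
    simp only [dv] at h1
    exact h1

end Pool.Agent.Results.MP_f686a1_nt.DigitalFunctions
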