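import Pool.Agent.X32.Uni.Grow6

/-!
# Prime `k`-tuples with `k` up to `c log x / log log x` shifts, for almost primes, and exactly these shifts

For all `ε > 0` and `B ≥ 1` there is a `c > 0` such that for all large `x` the following holds uniformly: if `S` is any
admissible set of integers and `T` any set of other integers, `(|S| + |T|) log log x ≤ c log x` and all elements of `S`
and `T` are at most `x ^ B` in absolute value, then there are at least `x ^ (1 - ε)` integers `1 ≤ n ≤ x` for which
* every `n + a`, `a ∈ S`, has only prime factors `> x ^ (c / |S|)`, and at most `|S| / c` of them, with multiplicity,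
* every `n + b`, `b ∈ T`, is composite: it has a prime factor `q ≤ (log x) ^ 3`, and `|n + b| > (log x) ^ 3`.

So the question of the problem has a positive answer, even in this larger range of `k` and with shifts up to `x ^ B`,
if primes are replaced by integers with at most `O(k)` prime factors, all larger than `x ^ (c / k)`; and the shifts for
which this happens can moreover be prescribed exactly inside any set of `≤ c log x / (2 log log x)` integers.
-/

set_option autoImplicit false

namespace Pool.Agent.Results.MP_f686a1_nt.ManyShifts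

open Finset

/-- `S` is admissible: for every prime `p` some residue class `-y` contains no element of `S` -/
def Admissible (S : Finset ℤ) : Prop := ∀ p : ℕ, p.Prime → ∃ y : ℤ, ∀ a ∈ S, ¬ (p : ℤ) ∣ y + a

open Classical in
/-- the integers `1 ≤ n ≤ x` described above -/
noncomputable def Good (S T : Finset ℤ) (c : ℝ) (x : ℕ) : Finset ℕ :=
  (Icc 1 x).filter (fun n : ℕ =>
    (∀ a ∈ S, (((n : ℤ) + a).natAbs.primeFactorsList.length : ℝ) ≤ S.card / c ∧
      ∀ p : ℕ, p.Prime → (p : ℤ) ∣ n + a → (x : ℝ) ^ (c / S.card) < p) ∧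
    ∀ b ∈ T, Real.log x ^ 3 < |((n : ℝ) + b)| ∧ ∃ q : ℕ, q.Prime ∧ (q : ℝ) ≤ Real.log x ^ 3 ∧ (q : ℤ) ∣ n + b)

theorem result (ε B : ℝ) (hε : 0 < ε) (hB : 1 ≤ B) : ∃ c : ℝ, 0 < c ∧ ∃ x₀ : ℕ, ∀ x : ℕ, x₀ ≤ x →
    ∀ S T : Finset ℤ, Admissible S → S.Nonempty → Disjoint S T →
    ((S.card : ℝ) + T.card) * Real.log (Real.log x) ≤ c * Real.log x →
    (∀ a ∈ S ∪ T, |(a : ℝ)| ≤ (x : ℝ) ^ B) →
    (x : ℝ) ^ (1 - ε) ≤ ((Good S T c x).card : ℝ) :=
  Pool.Agent.X32.Uni.growF ε B hε hB

end Pool.Agent.Results.MP_f686a1_nt.ManyShifts
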