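import Mathlib
import Pool.Agent.X29.UT.Clu

set_option autoImplicit false

namespace Pool.Agent.Results.MP_f686a1_nt.RangeNearlySharp

open Finset Filter

/-- every prime `p` has a residue class without elements of `S` -/
def Admissible (S : Finset ℕ) : Prop := ∀ p : ℕ, p.Prime → ∃ r : ℕ, ∀ a ∈ S, ¬ a ≡ r [MOD p]

/-- some integer `1 ≤ n ≤ x` makes at least `m` of the numbers `n + a`, `a ∈ S`, prime -/
def Rich (x : ℝ) (m : ℕ) (S : Finset ℕ) : Prop :=
  ∃ n : ℕ, 1 ≤ n ∧ (n : ℝ) ≤ x ∧ m ≤ (S.filter fun a => (n + a).Prime).card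

/-- the primes in `(k, H]` -/
def primesIn (k H : ℕ) : Finset ℕ := (Ioc k H).filter Nat.Prime

theorem rich_iff (x : ℝ) (S : Finset ℕ) : Rich x S.card S ↔ Pool.Agent.X29.UT.Hit x S := by
  unfold Rich Pool.Agent.X29.UT.Hit
  constructor
  · rintro ⟨n, h1, h2, h3⟩
    refine ⟨n, h1, h2, fun a ha => ?_⟩
    have h4 : S.filter (fun a => (n + a).Prime) = S :=
      Finset.eq_of_subset_of_card_le (Finset.filter_subset _ _) h3
    rw [← h4] at ha
    exact (mem_filter.1 ha).2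
  · rintro ⟨n, h1, h2, h3⟩
    refine ⟨n, h1, h2, ?_⟩
    rw [Finset.filter_true_of_mem h3]

open Classical in
theorem result :
    -- (1) the assertion of the problem fails for `k ≤ (1 + δ) log x / log log x`, even for small shifts
    (∀ β δ : ℝ, 0 < β → β ≤ 1 → 0 < δ → δ ≤ 1 → ∀ᶠ x : ℝ in atTop, ∃ S : Finset ℕ, Admissible S ∧
      (∀ a ∈ S, (a : ℝ) ≤ Real.exp (δ * Real.log x ^ β)) ∧
      (S.card : ℝ) ≤ (1 + δ) / β * (Real.log x / Real.log (Real.log x)) ∧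
      ¬ ∃ n : ℕ, 1 ≤ n ∧ (n : ℝ) ≤ x ∧ ∀ a ∈ S, (n + a).Prime) ∧
    -- (2) it fails for almost all `k`-element sets of primes in `(k, H]`
    (∀ ε : ℝ, 0 < ε → ε ≤ 1 → ∃ (B : ℕ) (x₀ : ℝ), ∀ x : ℝ, x₀ ≤ x → ∀ H k : ℕ,
      Real.exp (Real.log (Real.log x) ^ B) ≤ H → k ^ 2 ≤ H →
      (1 + ε) * Real.log x ≤ k * Real.log (Real.log H) →
      k ≤ (primesIn k H).card ∧ (∀ S ∈ (primesIn k H).powersetCard k, Admissible S) ∧
      (((primesIn k H).powersetCard k).filter (fun S => Rich x k S)).card ≤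
        x ^ (-(ε / 2)) * ((primesIn k H).powersetCard k).card) ∧
    -- (3) for almost all of these sets the number of primes in every translate is small
    (∀ ε : ℝ, 0 < ε → ε ≤ 1 → ∃ (B : ℕ) (x₀ : ℝ), ∀ x : ℝ, x₀ ≤ x → ∀ H k m : ℕ,
      Real.exp (Real.log (Real.log x) ^ B) ≤ H → (H : ℝ) ≤ x → (k : ℝ) ≤ Real.log H ^ (1 + ε / 8) →
      (1 + ε) * Real.log x ≤ m * Real.log (Real.log H) →
      k ≤ (primesIn k H).card ∧ (∀ S ∈ (primesIn k H).powersetCard k, Admissible S) ∧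
      (((primesIn k H).powersetCard k).filter (fun S => Rich x m S)).card ≤
        x ^ (-(ε / 2)) * ((primesIn k H).powersetCard k).card) := by
  have hadm : ∀ k H : ℕ, ∀ S ∈ (primesIn k H).powersetCard k, Admissible S := by
    intro k H S hS
    rw [mem_powersetCard] at hS
    exact Pool.Agent.X29.UT.adm hS.1 hS.2.le
  refine ⟨Pool.Agent.X29.UT.exists_set, ?_, ?_⟩
  · intro ε h0 h1
    obtain ⟨B, x₀, h⟩ := Pool.Agent.X29.UT.main ε h0 h1
    refine ⟨B, x₀, fun x hx H k h2 h3 h4 => ?_⟩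
    obtain ⟨h5, h6⟩ := h x hx H k h2 h3 h4
    refine ⟨h5, hadm k H, ?_⟩
    refine le_trans (le_of_eq ?_) h6
    congr 2
    apply Finset.filter_congr
    intro S hS
    have hc : S.card = k := (mem_powersetCard.1 hS).2
    rw [← rich_iff, hc]
  · intro ε h0 h1
    obtain ⟨B, x₀, h⟩ := Pool.Agent.X29.UT.main2 ε h0 h1
    refine ⟨B, x₀, fun x hx H k m h2 h3 h4 h5 => ?_⟩
    obtain ⟨h6, h7⟩ := h x hx H k m h2 h3 h4 h5
    exact ⟨h6, hadm k H, h7⟩

end Pool.Agent.Results.MP_f686a1_nt.RangeNearlySharp
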